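import Pool.Agent.W595.PT.Stms

set_option autoImplicit false

/-!
Part BR of project PT (MP_0f1560_al): from typed families of ring elements to modules.
-/

namespace Pool.Agent.W585.PT.BR

open Pool.Agent.W595.PT Pool.Agent.W595.PT.Gam

universe u

variable {L : Type u} [Ring L] (A B : TC L)

lemma c_io_po (e : L) (q : ℕ) (b : B.Y) (x : Fin B.n) :
    ((io e * po q : Gam L) • b).c x = if B.pos x = q then e * b.c x else 0 := by
  rw [TC.Y.c_smul]
  have h1 : ∀ p, bN (io e * po q : Gam L) p = 0 := by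
    intro p
    rw [bN_mul, bN_po, bN_io, mul_zero, zero_mul, add_zero]
  simp only [h1, zero_mul, Finset.sum_const_zero, add_zero]
  rw [aN_mul, aN_io _ (B.hpos x), aN_po _ (B.hpos x)]
  split_ifs with h
  · rw [mul_one]
  · rw [mul_zero, zero_mul]

lemma c_io (e : L) (b : B.Y) (x : Fin B.n) : ((io e : Gam L) • b).c x = e * b.c x := by
  rw [TC.Y.c_smul]
  simp only [bN_io, zero_mul, Finset.sum_const_zero, add_zero]
  rw [aN_io _ (B.hpos x)]

lemma c_de (b : B.Y) (x : Fin B.n) : ((de : Gam L) • b).c x = ∑ z, b.c z * B.m z x := by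
  rw [TC.Y.c_smul]
  simp only [aN_de, zero_mul, zero_add]
  refine Finset.sum_congr rfl fun z _ => ?_
  by_cases h : B.pos z < 6
  · rw [bN_de h, one_mul]
  · have h1 : B.m z x = 0 := by
      apply B.mpos
      have := B.hpos x
      omega
    rw [h1, mul_zero, mul_zero]

lemma c_D (w : Fin A.n → B.Y) (v : Fin A.n) (x : Fin B.n) :
    (A.D w v).c x = TC.dd A B (fun v x => (w v).c x) v x := by
  show ((de : Gam L) • w v + ∑ z, io (A.m v z) • w z : B.Y).c x = _
  rw [TC.Y.c_add, TC.Y.c_sum, c_de]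
  show _ = ∑ z, A.m v z * (w z).c x + ∑ z, (w v).c z * B.m z x
  rw [add_comm]
  congr 1
  refine Finset.sum_congr rfl fun z _ => ?_
  rw [c_io]

variable {A B}

lemma Ty.right {z : Fin A.n → Fin B.n → L} (hz : TC.Ty A B z) (v : Fin A.n) (x : Fin B.n) :
    z v x * B.e x = z v x := by
  have h := hz v x
  calc z v x * B.e x = (A.e v * z v x * B.e x) * B.e x := by rw [h]
    _ = A.e v * z v x * (B.e x * B.e x) := by simp only [mul_assoc]
    _ = z v x := by rw [B.ee, h]

lemma Ty.left {z : Fin A.n → Fin B.n → L} (hz : TC.Ty A B z) (v : Fin A.n) (x : Fin B.n) :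
    A.e v * z v x = z v x := by
  have h := hz v x
  calc A.e v * z v x = A.e v * (A.e v * z v x * B.e x) := by rw [h]
    _ = (A.e v * A.e v) * z v x * B.e x := by simp only [mul_assoc]
    _ = z v x := by rw [A.ee, h]

/-- the family of elements of `B.Y` attached to a typed family -/
def toY (z : Fin A.n → Fin B.n → L) (hz : TC.Ty A B z) : Fin A.n → B.Y :=
  fun v => TC.Y.mk (z v) (fun x => Ty.right hz v x)

lemma toY_c (z : Fin A.n → Fin B.n → L) (hz : TC.Ty A B z) (v : Fin A.n) (x : Fin B.n) :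
    (toY z hz v).c x = z v x := rfl

lemma toY_F (z : Fin A.n → Fin B.n → L) (hz : TC.Ty A B z) : A.IsF (toY z hz) := by
  intro v
  ext x
  rw [c_io, toY_c]
  exact Ty.left hz v x

lemma toY_D (z : Fin A.n → Fin B.n → L) (hz : TC.Ty A B z) (w : Fin A.n → B.Y)
    (h : TC.dd A B z = fun v x => (w v).c x) : A.D (toY z hz) = w := by
  funext v
  ext x
  rw [c_D]
  exact congrFun (congrFun h v) x

lemma ty_of_left (w : Fin A.n → B.Y) (h : ∀ v x, A.e v * (w v).c x = (w v).c x) :
    TC.Ty A B (fun v x => (w v).c x) := by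
  intro v x
  show A.e v * (w v).c x * B.e x = (w v).c x
  rw [h, TC.Y.c_e]

lemma dd_of_D (w : Fin A.n → B.Y) (h : A.D w = 0) :
    TC.dd A B (fun v x => (w v).c x) = 0 := by
  funext v x
  rw [← c_D, h]
  rfl

/-- the part of degree `i` -/
def cut (i : ℕ) (z : Fin A.n → Fin B.n → L) : Fin A.n → Fin B.n → L :=
  fun v x => if B.pos x = A.pos v + i then z v x else 0

lemma dd_cut (i : ℕ) (z : Fin A.n → Fin B.n → L) :
    TC.dd A B (cut i z) = cut (i + 1) (TC.dd A B z) := by
  funext v x
  show ∑ u, A.m v u * cut i z u x + ∑ u, cut i z v u * B.m u x =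
    if B.pos x = A.pos v + (i + 1) then ∑ u, A.m v u * z u x + ∑ u, z v u * B.m u x else 0
  by_cases h : B.pos x = A.pos v + (i + 1)
  · rw [if_pos h]
    congr 1
    · refine Finset.sum_congr rfl fun u _ => ?_
      by_cases hu : A.pos u = A.pos v + 1
      · have h1 : cut i z u x = z u x := if_pos (by omega)
        rw [h1]
      · rw [A.mpos v u hu, zero_mul, zero_mul]
    · refine Finset.sum_congr rfl fun u _ => ?_
      by_cases hu : B.pos x = B.pos u + 1
      · have h1 : cut i z v u = z v u := if_pos (by omega)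
        rw [h1]
      · rw [B.mpos u x hu, mul_zero, mul_zero]
  · rw [if_neg h]
    have h1 : ∑ u, A.m v u * cut i z u x = 0 := by
      refine Finset.sum_eq_zero fun u _ => ?_
      by_cases hu : A.pos u = A.pos v + 1
      · have h1 : cut i z u x = 0 := if_neg (by omega)
        rw [h1, mul_zero]
      · rw [A.mpos v u hu, zero_mul]
    have h2 : ∑ u, cut i z v u * B.m u x = 0 := by
      refine Finset.sum_eq_zero fun u _ => ?_
      by_cases hu : B.pos x = B.pos u + 1
      · have h1 : cut i z v u = 0 := if_neg (by omega)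
        rw [h1, zero_mul]
      · rw [B.mpos u x hu, mul_zero]
    rw [h1, h2, add_zero]

lemma cut_ty (i : ℕ) {z : Fin A.n → Fin B.n → L} (hz : TC.Ty A B z) : TC.Ty A B (cut i z) := by
  intro v x
  unfold cut
  split_ifs with h
  · exact hz v x
  · rw [mul_zero, zero_mul]

lemma E_coord {i : ℕ} {w : Fin A.n → B.Y} (hw : A.IsE i w) (v : Fin A.n) (x : Fin B.n) :
    (if B.pos x = A.pos v + i then A.e v * (w v).c x else 0) = (w v).c x := by
  have h := congrArg (fun y : B.Y => y.c x) (hw v)
  rw [c_io_po] at h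
  exact h

lemma E_left {i : ℕ} {w : Fin A.n → B.Y} (hw : A.IsE i w) (v : Fin A.n) (x : Fin B.n) :
    A.e v * (w v).c x = (w v).c x := by
  have h := E_coord hw v x
  by_cases hp : B.pos x = A.pos v + i
  · rwa [if_pos hp] at h
  · rw [if_neg hp] at h
    rw [← h, mul_zero]

lemma E_cut {i : ℕ} {w : Fin A.n → B.Y} (hw : A.IsE i w) :
    cut i (fun v x => (w v).c x) = fun v x => (w v).c x := by
  funext v x
  show (if B.pos x = A.pos v + i then (w v).c x else 0) = (w v).c x
  have h := E_coord hw v x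
  split_ifs with hp
  · rfl
  · rw [if_neg hp] at h
    exact h

lemma toY_E (i : ℕ) (z : Fin A.n → Fin B.n → L) (hz : TC.Ty A B z) :
    A.IsE i (toY (cut i z) (cut_ty i hz)) := by
  intro v
  ext x
  rw [c_io_po, toY_c]
  unfold cut
  split_ifs with h
  · exact Ty.left hz v x
  · rfl

theorem s_BR : S_BR.{u} := by
  intro L _ A B hAB
  constructor
  · intro i w hw hD
    obtain ⟨z, hz, hzy⟩ := hAB _ (ty_of_left w (E_left hw)) (dd_of_D w hD)
    refine ⟨toY (cut i z) (cut_ty i hz), toY_E i z hz, toY_D _ _ w ?_⟩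
    rw [dd_cut, hzy, E_cut hw]
  · intro w hw hD
    have hl : ∀ v x, A.e v * (w v).c x = (w v).c x := by
      intro v x
      have h := congrArg (fun y : B.Y => y.c x) (hw v)
      rwa [c_io] at h
    obtain ⟨z, hz, hzy⟩ := hAB _ (ty_of_left w hl) (dd_of_D w hD)
    exact ⟨toY z hz, toY_F z hz, toY_D z hz w hzy⟩

theorem s_BRS : S_BRS.{u} := by
  intro K _ L _ _ A hA i w hw hD
  obtain ⟨z, c, hz, hzy⟩ := hA _ (ty_of_left w (E_left hw)) (dd_of_D w hD)
  refine ⟨toY (cut i z) (cut_ty i hz), toY_E i z hz, toY_D _ _ w ?_⟩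
  rw [dd_cut, ← E_cut hw, hzy]
  funext v x
  show (if A.pos x = A.pos v + (i + 1) then TC.dd A A z v x else 0) =
    if A.pos x = A.pos v + (i + 1) then TC.dd A A z v x + c • (if v = x then A.e v else 0) else 0
  split_ifs with h1 h2
  · exfalso
    rw [h2] at h1
    omega
  · rw [smul_zero, add_zero]
  · rfl

end Pool.Agent.W585.PT.BR

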