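import Pool.Agent.W585.PT.BR

set_option autoImplicit false

/-!
Part ENDY of project PT (MP_0f1560_al): homomorphisms between the modules `A.Y`.
-/

namespace Pool.Agent.W585.PT.ENDY

open Pool.Agent.W595.PT Pool.Agent.W595.PT.Gam Pool.Agent.W585.PT.BR

universe u

variable {L : Type u} [Ring L] (A B : TC L)

/-- the generators of `A.Y` -/
def g (v : Fin A.n) : A.Y := TC.Y.mk (fun x => if x = v then A.e v else 0) (by
  intro x
  split_ifs with h
  · rw [h, A.ee]
  · rw [zero_mul])

lemma g_c (v x : Fin A.n) : (g A v).c x = if x = v then A.e v else 0 := rfl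

lemma gen (y : A.Y) : y = ∑ v, (io (y.c v) * po (A.pos v) : Gam L) • g A v := by
  ext x
  rw [TC.Y.c_sum, Finset.sum_eq_single x]
  · rw [c_io_po, if_pos rfl, g_c, if_pos rfl, y.c_e]
  · intro v _ hv
    rw [c_io_po, g_c, if_neg (Ne.symm hv), mul_zero, ite_self]
  · intro h
    exact absurd (Finset.mem_univ x) h

lemma g_po (v : Fin A.n) : (io (A.e v) * po (A.pos v) : Gam L) • g A v = g A v := by
  ext x
  rw [c_io_po, g_c]
  by_cases h : x = v
  · rw [if_pos h, h, if_pos rfl, A.ee]
  · rw [if_neg h, mul_zero, ite_self]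

lemma g_de (v : Fin A.n) : (de : Gam L) • g A v = ∑ z, (io (A.m v z) : Gam L) • g A z := by
  ext x
  rw [c_de, TC.Y.c_sum, Finset.sum_eq_single v, Finset.sum_eq_single x]
  · rw [c_io, g_c, g_c, if_pos rfl, if_pos rfl, A.em, A.me]
  · intro z _ hz
    rw [c_io, g_c, if_neg (Ne.symm hz), mul_zero]
  · intro h
    exact absurd (Finset.mem_univ x) h
  · intro z _ hz
    rw [g_c, if_neg hz, zero_mul]
  · intro h
    exact absurd (Finset.mem_univ v) h

variable {A B}

/-- the family of ring elements of a linear map -/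
def fam (f : A.Y →ₗ[Gam L] B.Y) (v : Fin A.n) (x : Fin B.n) : L := (f (g A v)).c x

lemma fam_coord (f : A.Y →ₗ[Gam L] B.Y) (v : Fin A.n) (x : Fin B.n) :
    (if B.pos x = A.pos v then A.e v * fam f v x else 0) = fam f v x := by
  have h : (io (A.e v) * po (A.pos v) : Gam L) • f (g A v) = f (g A v) := by
    rw [← map_smul, g_po]
  have h1 := congrArg (fun y : B.Y => y.c x) h
  rw [c_io_po] at h1
  exact h1

lemma fam_left (f : A.Y →ₗ[Gam L] B.Y) (v : Fin A.n) (x : Fin B.n) :
    A.e v * fam f v x = fam f v x := by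
  have h := fam_coord f v x
  by_cases hp : B.pos x = A.pos v
  · rwa [if_pos hp] at h
  · rw [if_neg hp] at h
    rw [← h, mul_zero]

lemma fam_pos (f : A.Y →ₗ[Gam L] B.Y) (v : Fin A.n) (x : Fin B.n) (h : B.pos x ≠ A.pos v) :
    fam f v x = 0 := by
  have h1 := fam_coord f v x
  rw [if_neg h] at h1
  exact h1.symm

lemma fam_ty (f : A.Y →ₗ[Gam L] B.Y) (v : Fin A.n) (x : Fin B.n) :
    A.e v * fam f v x * B.e x = fam f v x := by
  rw [fam_left]
  exact TC.Y.c_e _ _

lemma apply_coord (f : A.Y →ₗ[Gam L] B.Y) (y : A.Y) (x : Fin B.n) :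
    (f y).c x = ∑ v, y.c v * fam f v x := by
  conv_lhs => rw [gen A y, map_sum, TC.Y.c_sum]
  refine Finset.sum_congr rfl fun v _ => ?_
  rw [map_smul, c_io_po]
  show (if B.pos x = A.pos v then y.c v * fam f v x else 0) = _
  split_ifs with h
  · rfl
  · rw [fam_pos f v x h, mul_zero]

lemma fam_comm (f : A.Y →ₗ[Gam L] B.Y) (v : Fin A.n) (x : Fin B.n) :
    ∑ z, fam f v z * B.m z x = ∑ z, A.m v z * fam f z x := by
  have h : (de : Gam L) • f (g A v) = ∑ z, (io (A.m v z) : Gam L) • f (g A z) := by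
    rw [← map_smul, g_de, map_sum]
    exact Finset.sum_congr rfl fun z _ => map_smul f _ _
  have h1 := congrArg (fun y : B.Y => y.c x) h
  rw [c_de, TC.Y.c_sum] at h1
  refine h1.trans (Finset.sum_congr rfl fun z _ => ?_)
  rw [c_io]
  rfl

theorem s_HOMY : S_HOMY.{u} := by
  intro L _ A B h f
  apply LinearMap.ext
  intro y
  ext x
  rw [apply_coord]
  show _ = 0
  refine Finset.sum_eq_zero fun v _ => ?_
  by_cases hp : A.pos v = B.pos x
  · rw [← fam_ty, h v x hp, mul_zero]
  · rw [fam_pos f v x (Ne.symm hp), mul_zero]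

theorem s_ENDY : S_ENDY.{u} := by
  intro K _ L _ _ A hA hz0 f
  -- sign twist
  let sg : ℕ → L := fun p => (-1) ^ p
  have hsg1 : ∀ p, sg (p + 1) = - sg p := by
    intro p
    show (-1 : L) ^ (p + 1) = -(-1) ^ p
    rw [pow_succ, mul_neg, mul_one]
  have hsgc : ∀ p (x : L), sg p * x = x * sg p := by
    intro p x
    exact ((Commute.neg_one_left x).pow_left p).eq
  have hsg2 : ∀ p, sg p * sg p = 1 := by
    intro p
    show (-1 : L) ^ p * (-1) ^ p = 1
    rw [← pow_add, ← two_mul, pow_mul, neg_one_sq, one_pow]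
  let y' : Fin A.n → Fin A.n → L := fun v x => sg (A.pos v) * fam f v x
  have hty : TC.Ty A A y' := by
    intro v x
    show A.e v * (sg (A.pos v) * fam f v x) * A.e x = sg (A.pos v) * fam f v x
    rw [← mul_assoc (A.e v), ← hsgc, mul_assoc (sg _), mul_assoc (sg _), fam_ty]
  have hdd : TC.dd A A y' = 0 := by
    funext v x
    show ∑ z, A.m v z * (sg (A.pos z) * fam f z x) + ∑ z, (sg (A.pos v) * fam f v z) * A.m z x = 0
    have h1 : ∀ z, A.m v z * (sg (A.pos z) * fam f z x) = - (sg (A.pos v) * (A.m v z * fam f z x)) := by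
      intro z
      by_cases hp : A.pos z = A.pos v + 1
      · rw [hp, hsg1, ← mul_assoc, mul_neg, ← hsgc, neg_mul, mul_assoc]
      · rw [A.mpos v z hp, zero_mul, zero_mul, mul_zero, neg_zero]
    have h2 : ∀ z, (sg (A.pos v) * fam f v z) * A.m z x = sg (A.pos v) * (fam f v z * A.m z x) :=
      fun z => mul_assoc _ _ _
    rw [Finset.sum_congr rfl (fun z _ => h1 z), Finset.sum_congr rfl (fun z _ => h2 z),
      Finset.sum_neg_distrib, ← Finset.mul_sum, ← Finset.mul_sum, fam_comm, neg_add_cancel]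
  obtain ⟨z, c, hz, hzy⟩ := hA y' hty hdd
  have hzz : ∀ u x, A.pos u = A.pos x + 1 → z u x = 0 := by
    intro u x hux
    rw [← hz u x, hz0 u x hux]
  have hdeg : ∀ v x, A.pos x = A.pos v → TC.dd A A z v x = 0 := by
    intro v x hp
    show ∑ u, A.m v u * z u x + ∑ u, z v u * A.m u x = 0
    have h1 : ∑ u, A.m v u * z u x = 0 := by
      refine Finset.sum_eq_zero fun u _ => ?_
      by_cases hu : A.pos u = A.pos v + 1
      · rw [hzz u x (by omega), mul_zero]
      · rw [A.mpos v u hu, zero_mul]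
    have h2 : ∑ u, z v u * A.m u x = 0 := by
      refine Finset.sum_eq_zero fun u _ => ?_
      by_cases hu : A.pos x = A.pos u + 1
      · rw [hzz v u (by omega), zero_mul]
      · rw [A.mpos u x hu, mul_zero]
    rw [h1, h2, add_zero]
  have hfam : ∀ v x, fam f v x = c • (sg (A.pos v) * (if v = x then A.e v else 0)) := by
    intro v x
    by_cases hp : A.pos x = A.pos v
    · have h1 : sg (A.pos v) * fam f v x = TC.dd A A z v x + c • (if v = x then A.e v else 0) :=
        congrFun (congrFun hzy v) x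
      rw [hdeg v x hp, zero_add] at h1
      have h2 : fam f v x = sg (A.pos v) * (sg (A.pos v) * fam f v x) := by
        rw [← mul_assoc, hsg2, one_mul]
      rw [h2, h1, mul_smul_comm]
    · rw [fam_pos f v x hp, if_neg, mul_zero, smul_zero]
      rintro rfl
      exact hp rfl
  have hf : ∀ (y : A.Y) (x : Fin A.n), (f y).c x = c • (sg (A.pos x) * y.c x) := by
    intro y x
    rw [apply_coord, Finset.sum_eq_single x]
    · rw [hfam, if_pos rfl, mul_smul_comm, ← mul_assoc, ← hsgc, mul_assoc, y.c_e]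
    · intro v _ hv
      rw [hfam, if_neg hv, mul_zero, smul_zero, mul_zero]
    · intro h
      exact absurd (Finset.mem_univ x) h
  by_cases hc : c = 0
  · left
    apply LinearMap.ext
    intro y
    ext x
    rw [hf, hc, zero_smul]
    rfl
  · right
    constructor
    · intro y1 y2 h12
      ext x
      have h1 := congrArg (fun y : A.Y => c⁻¹ • (sg (A.pos x) * y.c x)) h12
      simp only [hf] at h1
      rw [mul_smul_comm, mul_smul_comm, smul_smul, smul_smul, inv_mul_cancel₀ hc, one_smul,
        one_smul, ← mul_assoc, ← mul_assoc, hsg2, one_mul, one_mul] at h1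
      exact h1
    · intro y
      refine ⟨TC.Y.mk (fun x => c⁻¹ • (sg (A.pos x) * y.c x)) (fun x => ?_), ?_⟩
      · rw [smul_mul_assoc, mul_assoc, y.c_e]
      · ext x
        rw [hf, TC.Y.c_mk, mul_smul_comm, smul_smul, mul_inv_cancel₀ hc, one_smul, ← mul_assoc,
          hsg2, one_mul]

theorem s_YG : S_YG.{u} := by
  intro L _ A v1 v2 v3 h1 h2 h3 h12 h13 h23 p f hf
  refine ⟨fun φ => ?_⟩
  have key : ∀ v : Fin A.n, A.e v ≠ 0 → A.pos v = p ∨ A.pos v = p + 1 := by
    intro v hv
    have hg0 : g A v ≠ 0 := by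
      intro h
      apply hv
      have h4 := congrArg (fun y : A.Y => y.c v) h
      rw [g_c, if_pos rfl] at h4
      exact h4
    have hpo : (po (A.pos v) : Gam L) • g A v = g A v := by
      have h4 : (po (A.pos v) : Gam L) = io 1 * po (A.pos v) := by rw [map_one, one_mul]
      ext x
      rw [h4, c_io_po, g_c, one_mul]
      by_cases h : x = v
      · rw [h, if_pos rfl]
      · rw [if_neg h, ite_self]
    have hX0 : φ (g A v) ≠ 0 := by
      intro h
      exact hg0 ((LinearEquiv.map_eq_zero_iff φ).1 h)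
    obtain ⟨X, hX⟩ : ∃ X : Gam L, X = (φ (g A v)).1 := ⟨_, rfl⟩
    have hX1 : X * (io f * po p) = X := by
      rw [hX]
      exact (φ (g A v)).2
    have hX2 : po (A.pos v) * X = X := by
      rw [hX]
      have h5 : (po (A.pos v) : Gam L) • φ (g A v) = φ (g A v) := by rw [← map_smul, hpo]
      exact congrArg Subtype.val h5
    have hXne : X ≠ 0 := by
      intro h
      apply hX0
      apply Subtype.ext
      rw [← hX, h]
      rfl
    by_contra hcon
    push Not at hcon
    apply hXne
    ext r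
    · by_cases hr : (r : ℕ) = p
      · have h6 : X.a r = (po (A.pos v) * X).a r := by rw [hX2]
        rw [mul_a, po_a, if_neg (by rw [hr]; exact Ne.symm hcon.1), zero_mul] at h6
        exact h6
      · have h6 : X.a r = (X * (io f * po p)).a r := by rw [hX1]
        rw [mul_a, mul_a, po_a, if_neg hr, mul_zero, mul_zero] at h6
        exact h6
    · by_cases hr : (r : ℕ) = p
      · have h6 : X.b r = (po (A.pos v) * X).b r := by rw [hX2]
        rw [mul_b, po_a, po_b, if_neg (by rw [Fin.val_succ, hr]; exact Ne.symm hcon.2), zero_mul,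
          Pi.zero_apply, zero_mul, add_zero] at h6
        exact h6
      · have h6 : X.b r = (X * (io f * po p)).b r := by rw [hX1]
        rw [mul_b, mul_b, po_b, mul_a, po_a, if_neg (by rw [Fin.val_castSucc]; exact hr), mul_zero,
          mul_zero, Pi.zero_apply, mul_zero, add_zero, mul_zero, mul_zero, add_zero] at h6
        exact h6
  have k1 := key v1 h1
  have k2 := key v2 h2
  have k3 := key v3 h3
  omega

end Pool.Agent.W585.PT.ENDY

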