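import Pool.Agent.W595.PT.Stms

set_option autoImplicit false

/-!
Part KS of project PT (MP_0f1560_al): Krull-Schmidt count of the indecomposable direct summands.
-/

namespace Pool.Agent.W585.PT.KS

open Pool.Agent.W595.PT

universe u

section general

variable {S : Type u} [Ring S]

/-- if all endomorphisms are zero or bijective, the module is indecomposable -/
lemma indec_of_end {X : Type u} [AddCommGroup X] [Module S X]
    (h : ∀ f : X →ₗ[S] X, f = 0 ∨ Function.Bijective f) (A B : Submodule S X)
    (hAB : IsCompl A B) : A = ⊥ ∨ B = ⊥ := by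
  rcases h (A.projection B hAB) with h0 | hb
  · left
    rw [eq_bot_iff]
    intro x hx
    have h1 := Submodule.projection_apply_of_mem_left hAB hx
    rw [h0] at h1
    rw [Submodule.mem_bot, ← h1]
    rfl
  · right
    rw [← Submodule.ker_projection hAB]
    exact LinearMap.ker_eq_bot.2 hb.1

/-- Fitting: endomorphisms of an indecomposable summand are nilpotent or units -/
lemma nil_or_unit {M : Type u} [AddCommGroup M] [Module S M] [IsNoetherian S M] [IsArtinian S M]
    (N : Submodule S M) (hind : ∀ A B : Submodule S M, A ⊔ B = N → A ⊓ B = ⊥ → A = ⊥ ∨ B = ⊥)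
    (f : Module.End S N) : IsNilpotent f ∨ IsUnit f := by
  obtain ⟨n, hn, hn1⟩ := (f.eventually_isCompl_ker_pow_range_pow.and
    (Filter.eventually_ge_atTop 1)).exists
  have hinj : Function.Injective N.subtype := N.injective_subtype
  have hsup : (LinearMap.ker (f ^ n)).map N.subtype ⊔ (LinearMap.range (f ^ n)).map N.subtype
      = N := by
    rw [← Submodule.map_sup, hn.sup_eq_top, Submodule.map_top, Submodule.range_subtype]
  have hinf : (LinearMap.ker (f ^ n)).map N.subtype ⊓ (LinearMap.range (f ^ n)).map N.subtype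
      = ⊥ := by
    rw [← Submodule.map_inf _ hinj, hn.inf_eq_bot, Submodule.map_bot]
  rcases hind _ _ hsup hinf with h | h
  · right
    have hk : LinearMap.ker (f ^ n) = ⊥ := by
      rw [← Submodule.map_bot N.subtype] at h
      exact Submodule.map_injective_of_injective hinj h
    have hr : LinearMap.range (f ^ n) = ⊤ := by
      have h2 := hn.sup_eq_top
      rwa [hk, bot_sup_eq] at h2
    have hu : IsUnit (f ^ n) := by
      rw [Module.End.isUnit_iff]
      exact ⟨LinearMap.ker_eq_bot.1 hk, LinearMap.range_eq_top.1 hr⟩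
    exact (isUnit_pow_iff (by omega)).1 hu
  · left
    have hr : LinearMap.range (f ^ n) = ⊥ := by
      rw [← Submodule.map_bot N.subtype] at h
      exact Submodule.map_injective_of_injective hinj h
    exact ⟨n, LinearMap.range_eq_bot.1 hr⟩

/-- in a ring whose elements are nilpotent or units, a finite sum equal to one has a unit term -/
lemma exists_unit {R : Type u} [Ring R] [Nontrivial R] (h : ∀ f : R, IsNilpotent f ∨ IsUnit f)
    {ι : Type} [DecidableEq ι] (s : Finset ι) :
    ∀ θ : ι → R, ∑ i ∈ s, θ i = 1 → ∃ i ∈ s, IsUnit (θ i) := by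
  induction s using Finset.induction_on with
  | empty =>
    intro θ hθ
    rw [Finset.sum_empty] at hθ
    exact absurd hθ zero_ne_one
  | insert i s hi ih =>
    intro θ hθ
    rw [Finset.sum_insert hi] at hθ
    rcases h (θ i) with hn | hu
    · have h1 : ∑ j ∈ s, θ j = 1 - θ i := by rw [← hθ]; abel
      obtain ⟨u, hu⟩ := hn.isUnit_one_sub
      have h2 : ∑ j ∈ s, (↑u⁻¹ * θ j) = (1 : R) := by
        rw [← Finset.mul_sum, h1, ← hu, Units.inv_mul]
      obtain ⟨j, hj, hju⟩ := ih (fun j => ↑u⁻¹ * θ j) h2
      refine ⟨j, Finset.mem_insert_of_mem hj, ?_⟩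
      exact (Units.isUnit_units_mul u⁻¹ (θ j)).1 hju
    · exact ⟨i, Finset.mem_insert_self i s, hu⟩

end general

theorem s_KS : S_KS.{u} := by
  intro S _ M _ _ ι _ N _ _ e hnt hend hniso hNoeth hArt
  classical
  let inc : ∀ i, N i →ₗ[S] M := fun i => e.symm.toLinearMap ∘ₗ LinearMap.single S N i
  let prj : ∀ i, M →ₗ[S] N i := fun i => LinearMap.proj i ∘ₗ e.toLinearMap
  have hpi : ∀ i x, prj i (inc i x) = x := by
    intro i x
    show (e (e.symm (Pi.single i x))) i = x
    rw [LinearEquiv.apply_symm_apply, Pi.single_eq_same]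
  have hincinj : ∀ i, Function.Injective (inc i) := fun i =>
    Function.LeftInverse.injective (hpi i)
  have hsum : ∀ m : M, ∑ i, inc i (prj i m) = m := by
    intro m
    apply e.injective
    rw [map_sum]
    funext j
    rw [Finset.sum_apply]
    have h1 : ∀ i, (e (inc i (prj i m))) j = (Pi.single i (e m i) : (k : ι) → N k) j := by
      intro i
      show (e (e.symm (Pi.single i (e m i)))) j = _
      rw [LinearEquiv.apply_symm_apply]
    rw [Finset.sum_congr rfl (fun i _ => h1 i), Finset.sum_eq_single j]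
    · rw [Pi.single_eq_same]
    · intro i _ hij
      rw [Pi.single_eq_of_ne (Ne.symm hij)]
    · intro h
      exact absurd (Finset.mem_univ j) h
  -- the summands
  let NN : ι → Submodule S M := fun i => LinearMap.range (inc i)
  have hNNcompl : ∀ i, IsCompl (NN i) (LinearMap.ker (prj i)) := by
    intro i
    constructor
    · rw [Submodule.disjoint_def]
      rintro _ ⟨x, rfl⟩ hx
      rw [LinearMap.mem_ker, hpi] at hx
      rw [hx, map_zero]
    · rw [codisjoint_iff, eq_top_iff]
      intro m _
      rw [Submodule.mem_sup]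
      refine ⟨inc i (prj i m), ⟨_, rfl⟩, m - inc i (prj i m), ?_, by abel⟩
      rw [LinearMap.mem_ker, map_sub, hpi, sub_self]
  have hNNbot : ∀ i, NN i ≠ ⊥ := by
    intro i h
    obtain ⟨x, hx⟩ := @exists_ne (N i) (hnt i) 0
    apply hx
    apply hincinj i
    rw [map_zero]
    have h1 : inc i x ∈ NN i := ⟨x, rfl⟩
    rw [h, Submodule.mem_bot] at h1
    exact h1
  have hNNind : ∀ i, ∀ A B : Submodule S M, A ⊔ B = NN i → A ⊓ B = ⊥ → A = ⊥ ∨ B = ⊥ := by
    intro i A B hsup hinf
    have hA : A ≤ NN i := hsup ▸ le_sup_left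
    have hB : B ≤ NN i := hsup ▸ le_sup_right
    have hc : IsCompl (A.comap (inc i)) (B.comap (inc i)) := by
      constructor
      · rw [disjoint_iff, ← Submodule.comap_inf, hinf, Submodule.comap_bot]
        exact LinearMap.ker_eq_bot.2 (hincinj i)
      · rw [codisjoint_iff, eq_top_iff]
        intro x _
        have h1 : inc i x ∈ A ⊔ B := by rw [hsup]; exact ⟨x, rfl⟩
        obtain ⟨a, ha, b, hb, hab⟩ := Submodule.mem_sup.1 h1
        obtain ⟨a', rfl⟩ := hA ha
        obtain ⟨b', rfl⟩ := hB hb
        rw [Submodule.mem_sup]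
        refine ⟨a', ha, b', hb, ?_⟩
        apply hincinj i
        rw [map_add, hab]
    have hback : ∀ C : Submodule S M, C ≤ NN i → C.comap (inc i) = ⊥ → C = ⊥ := by
      intro C hC h0
      rw [eq_bot_iff]
      intro c hc
      obtain ⟨c', rfl⟩ := hC hc
      have h1 : c' ∈ C.comap (inc i) := hc
      rw [h0, Submodule.mem_bot] at h1
      rw [h1, map_zero]
      exact Submodule.zero_mem _
    rcases indec_of_end (hend i) _ _ hc with h | h
    · exact Or.inl (hback A hA h)
    · exact Or.inr (hback B hB h)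
  let ff : ι → IndSummand S M := fun i =>
    ⟨NN i, hNNbot i, ⟨_, hNNcompl i⟩, hNNind i⟩
  have eqN : ∀ i, Nonempty (N i ≃ₗ[S] NN i) := fun i =>
    ⟨LinearEquiv.ofInjective (inc i) (hincinj i)⟩
  have hequiv : Equivalence (fun (A B : IndSummand S M) => Nonempty (A.1 ≃ₗ[S] B.1)) :=
    ⟨fun A => ⟨LinearEquiv.refl S _⟩, fun ⟨a⟩ => ⟨a.symm⟩, fun ⟨a⟩ ⟨b⟩ => ⟨a.trans b⟩⟩
  let F : ι → Quot (fun (A B : IndSummand S M) => Nonempty (A.1 ≃ₗ[S] B.1)) :=
    fun i => Quot.mk _ (ff i)
  have hFinj : Function.Injective F := by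
    intro i j hij
    by_contra hne
    have h1 := (hequiv.eqvGen_iff).1 (Quot.eqvGen_exact hij)
    obtain ⟨a⟩ := h1
    obtain ⟨b⟩ := eqN i
    obtain ⟨c⟩ := eqN j
    exact (hniso i j hne).false ((b.trans a).trans c.symm)
  have hFsurj : Function.Surjective F := by
    intro Q
    induction Q using Quot.ind with
    | mk A =>
      obtain ⟨X, hX0, ⟨X', hXX'⟩, hXind⟩ := A
      have hntX : Nontrivial X := Submodule.nontrivial_iff_ne_bot.2 hX0
      have hntE : Nontrivial (Module.End S X) := inferInstance
      let q : M →ₗ[S] X := X.projectionOnto X' hXX'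
      have hq : ∀ x : X, q x = x := fun x => Submodule.projectionOnto_apply_left hXX' x
      let a : ∀ i, X →ₗ[S] N i := fun i => prj i ∘ₗ X.subtype
      let b : ∀ i, N i →ₗ[S] X := fun i => q ∘ₗ inc i
      let θ : ι → Module.End S X := fun i => b i ∘ₗ a i
      have hθ : ∑ i, θ i = 1 := by
        apply LinearMap.ext
        intro x
        rw [LinearMap.sum_apply]
        have h1 : ∀ i, θ i x = q (inc i (prj i (x : M))) := fun i => rfl
        rw [Finset.sum_congr rfl (fun i _ => h1 i), ← map_sum, hsum, hq]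
        rfl
      obtain ⟨i, -, hi⟩ := exists_unit (nil_or_unit X hXind) Finset.univ θ hθ
      obtain ⟨u, hu⟩ := hi
      have huinv : ∀ x : X, (↑u⁻¹ : Module.End S X) (b i (a i x)) = x := by
        intro x
        have h2 : (↑u⁻¹ : Module.End S X) * θ i = 1 := by rw [← hu, Units.inv_mul]
        exact congrArg (fun g : Module.End S X => g x) h2
      have hainj : Function.Injective (a i) := by
        intro x y hxy
        rw [← huinv x, hxy, huinv y]
      let f : N i →ₗ[S] N i := a i ∘ₗ (↑u⁻¹ : Module.End S X) ∘ₗ b i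
      have hasurj : Function.Surjective (a i) := by
        rcases hend i f with h0 | hbij
        · exfalso
          obtain ⟨x, hx⟩ := exists_ne (0 : X)
          apply hx
          have h3 : f (a i x) = a i x := by
            show a i ((↑u⁻¹ : Module.End S X) (b i (a i x))) = a i x
            rw [huinv]
          rw [h0] at h3
          apply hainj
          rw [← h3, map_zero]
          rfl
        · intro y
          obtain ⟨x, hx⟩ := hbij.2 y
          exact ⟨(↑u⁻¹ : Module.End S X) (b i x), hx⟩
      obtain ⟨b'⟩ := eqN i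
      refine ⟨i, Quot.sound ⟨?_⟩⟩
      exact b'.symm.trans (LinearEquiv.ofBijective (a i) ⟨hainj, hasurj⟩).symm
  rw [← Nat.card_congr (Equiv.ofBijective F ⟨hFinj, hFsurj⟩), Nat.card_eq_fintype_card]

end Pool.Agent.W585.PT.KS

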