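import Pool.Agent.W595.PT.Stms

set_option autoImplicit false

/-!
Part TILT of project PT (MP_0f1560_al): acyclicity passes from `T` to `Gam L`
along a finite coresolution.
-/

namespace Pool.Agent.W585.PT

open Pool.Agent.W595.PT Pool.Agent.W595.PT.Gam CategoryTheory

universe u

variable {L : Type u} [Ring L] (Z : TC L)

section basic

variable {W : Type u} [AddCommGroup W] [Module (Gam L) W]
variable {W' : Type u} [AddCommGroup W'] [Module (Gam L) W']

lemma isF_map (f : W →ₗ[Gam L] W') {w : Fin Z.n → W} (hw : Z.IsF w) :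
    Z.IsF (fun v => f (w v)) := by
  intro v
  rw [← map_smul, hw v]

lemma D_map (f : W →ₗ[Gam L] W') (w : Fin Z.n → W) :
    Z.D (fun v => f (w v)) = fun v => f (Z.D w v) := by
  funext v
  simp only [TC.D, map_add, map_smul, map_sum]

lemma D_sub (w z : Fin Z.n → W) : Z.D (fun v => w v - z v) = fun v => Z.D w v - Z.D z v := by
  funext v
  simp only [TC.D, smul_sub, Finset.sum_sub_distrib]
  abel

lemma isF_D {w : Fin Z.n → W} (hw : Z.IsF w) : Z.IsF (Z.D w) := by
  intro v
  simp only [TC.D, smul_add, Finset.smul_sum, smul_smul]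
  congr 1
  · rw [io_de, mul_smul, hw v]
  · refine Finset.sum_congr rfl fun z _ => ?_
    rw [← map_mul, Z.em]

lemma two_zero (h2 : (2 : L) = 0) (x : W) : x + x = 0 := by
  have h : (1 : Gam L) + 1 = 0 := by
    have h3 : (1 : Gam L) + 1 = io (1 + 1 : L) := by rw [map_add, map_one]
    rw [h3, one_add_one_eq_two, h2, map_zero]
  have h4 : x + x = ((1 : Gam L) + 1) • x := by rw [add_smul, one_smul]
  rw [h4, h, zero_smul]

lemma D_D (h2 : (2 : L) = 0) (w : Fin Z.n → W) : Z.D (Z.D w) = 0 := by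
  funext v
  have h1 : ∑ z, io (Z.m v z) • ∑ y, io (Z.m z y) • w y = (0 : W) := by
    simp only [Finset.smul_sum, smul_smul]
    rw [Finset.sum_comm]
    refine Finset.sum_eq_zero fun y _ => ?_
    rw [← Finset.sum_smul]
    have h3 : ∑ z, io (Z.m v z) * io (Z.m z y) = (0 : Gam L) := by
      have h4 := congrArg io (Z.mm v y)
      rw [map_sum, map_zero] at h4
      simpa only [map_mul] using h4
    rw [h3, zero_smul]
  have h5 : ∑ z, io (Z.m v z) • ((de : Gam L) • w z) = (de : Gam L) • ∑ z, io (Z.m v z) • w z := by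
    rw [Finset.smul_sum]
    refine Finset.sum_congr rfl fun z _ => ?_
    rw [smul_smul, smul_smul, io_de]
  show (de : Gam L) • ((de : Gam L) • w v + ∑ z, io (Z.m v z) • w z) +
    ∑ z, io (Z.m v z) • ((de : Gam L) • w z + ∑ y, io (Z.m z y) • w y) = 0
  simp only [smul_add, Finset.sum_add_distrib]
  rw [h1, h5, smul_smul, de_de, zero_smul, zero_add, add_zero]
  exact two_zero h2 _

/-- acyclicity of a submodule -/
def AcS (N : Submodule (Gam L) W) : Prop :=
  ∀ w : Fin Z.n → W, (∀ v, w v ∈ N) → Z.IsF w → Z.D w = 0 →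
    ∃ z : Fin Z.n → W, (∀ v, z v ∈ N) ∧ Z.IsF z ∧ Z.D z = w

lemma acS_ker (h2 : (2 : L) = 0) (f : W →ₗ[Gam L] W') (hW : Z.Acyc W)
    (hr : AcS Z (LinearMap.range f)) : AcS Z (LinearMap.ker f) := by
  intro w hw hF hD
  obtain ⟨b, hb, hbw⟩ := hW w hF hD
  have h1 : Z.D (fun v => f (b v)) = 0 := by
    rw [D_map, hbw]
    funext v
    exact hw v
  obtain ⟨c, hc, hcF, hcD⟩ := hr (fun v => f (b v)) (fun v => ⟨b v, rfl⟩) (isF_map Z f hb) h1
  choose b' hb' using hc
  let b'' : Fin Z.n → W := fun v => io (Z.e v) • b' v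
  have hb''F : Z.IsF b'' := by
    intro v
    show io (Z.e v) • (io (Z.e v) • b' v) = io (Z.e v) • b' v
    rw [smul_smul, ← map_mul, Z.ee]
  have hfb : (fun v => f (b'' v)) = c := by
    funext v
    show f (io (Z.e v) • b' v) = c v
    rw [map_smul, hb', hcF v]
  refine ⟨fun v => b v - Z.D b'' v, ?_, ?_, ?_⟩
  · intro v
    rw [LinearMap.mem_ker, map_sub]
    have h3 : f (Z.D b'' v) = Z.D (fun v => f (b'' v)) v := by rw [D_map]
    rw [h3, hfb, hcD, sub_self]
  · intro v
    show io (Z.e v) • (b v - Z.D b'' v) = b v - Z.D b'' v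
    rw [smul_sub, hb v, isF_D Z hb''F v]
  · rw [D_sub, hbw, D_D Z h2]
    funext v
    simp

lemma acyc_of_inj (f : W →ₗ[Gam L] W') (hf : Function.Injective f)
    (hr : AcS Z (LinearMap.range f)) : Z.Acyc W := by
  intro w hF hD
  have h1 : Z.D (fun v => f (w v)) = 0 := by
    rw [D_map, hD]
    funext v
    exact map_zero f
  obtain ⟨c, hc, hcF, hcD⟩ := hr (fun v => f (w v)) (fun v => ⟨w v, rfl⟩) (isF_map Z f hF) h1
  choose b hb using hc
  have hfb : (fun v => f (b v)) = c := funext hb
  refine ⟨b, ?_, ?_⟩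
  · intro v
    apply hf
    rw [map_smul, hb, hcF v]
  · funext v
    apply hf
    have h3 : f (Z.D b v) = Z.D (fun v => f (b v)) v := by rw [D_map]
    rw [h3, hfb, hcD]

lemma acyc_retract (f : W →ₗ[Gam L] W') (g : W' →ₗ[Gam L] W) (hfg : ∀ x, g (f x) = x)
    (h : Z.Acyc W') : Z.Acyc W := by
  intro w hF hD
  have h1 : Z.D (fun v => f (w v)) = 0 := by
    rw [D_map, hD]
    funext v
    exact map_zero f
  obtain ⟨c, hcF, hcD⟩ := h (fun v => f (w v)) (isF_map Z f hF) h1
  refine ⟨fun v => g (c v), isF_map Z g hcF, ?_⟩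
  rw [D_map, hcD]
  funext v
  exact hfg _

lemma acyc_pi (k : ℕ) (h : Z.Acyc W) : Z.Acyc (Fin k → W) := by
  intro w hF hD
  have h1 : ∀ j : Fin k, ∃ z : Fin Z.n → W, Z.IsF z ∧ Z.D z = fun v => w v j := by
    intro j
    refine h (fun v => w v j) ?_ ?_
    · exact isF_map Z (LinearMap.proj (R := Gam L) (φ := fun _ : Fin k => W) j) hF
    · have h3 := D_map Z (LinearMap.proj (R := Gam L) (φ := fun _ : Fin k => W) j) w
      rw [hD] at h3
      exact h3
  choose z hz hzw using h1
  refine ⟨fun v j => z j v, ?_, ?_⟩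
  · intro v
    funext j
    exact hz j v
  · funext v j
    have h4 := D_map Z (LinearMap.proj (R := Gam L) (φ := fun _ : Fin k => W) j)
      (fun v j => z j v)
    have h5 := congrFun h4 v
    have h6 := congrFun (hzw j) v
    exact h5.symm.trans h6

lemma acS_subsingleton [Subsingleton W] (N : Submodule (Gam L) W) : AcS Z N := by
  intro w hw hF hD
  exact ⟨w, hw, hF, Subsingleton.elim _ _⟩

end basic

theorem s_TILT : S_TILT.{u} := by
  intro L _ h2 Z T hT hX
  obtain ⟨m, X, hX, h0, hlast, ⟨e1⟩, hret⟩ := hX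
  have hac : ∀ (i : ℕ) (hi : 2 ≤ i) (hi' : i ≤ m + 3), Z.Acyc (X.obj ⟨i, by omega⟩ : Type u) := by
    intro i hi hi'
    obtain ⟨k, f, g, hfg⟩ := hret ⟨i, by omega⟩ hi hi'
    refine acyc_retract Z f.hom g.hom ?_ (acyc_pi Z k hT)
    intro x
    have h := congrArg (fun q => q.hom x) hfg
    exact h
  have hex : ∀ (i : ℕ) (hi : i + 2 ≤ m + 4),
      LinearMap.range (X.map' i (i + 1)).hom = LinearMap.ker (X.map' (i + 1) (i + 2)).hom := by
    intro i hi
    have h := hX.exact i hi
    rw [ShortComplex.moduleCat_exact_iff_range_eq_ker] at h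
    exact h
  -- descending induction
  have hind : ∀ (j : ℕ) (i : ℕ) (hi : 2 ≤ i) (hij : i + j = m + 3),
      AcS Z (LinearMap.ker (X.map' i (i + 1)).hom) := by
    intro j
    induction j with
    | zero =>
      intro i hi hij
      apply acS_ker Z h2 _ (hac i hi (by omega))
      have hsub : Subsingleton (X.obj' (i + 1) : Type u) := by
        have h3 : (⟨i + 1, by omega⟩ : Fin (m + 4 + 1)) = Fin.last (m + 4) := by
          ext
          simp
          omega
        show Subsingleton (X.obj ⟨i + 1, by omega⟩ : Type u)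
        rw [h3]
        exact ModuleCat.subsingleton_of_isZero hlast
      exact acS_subsingleton Z _
    | succ j ih =>
      intro i hi hij
      apply acS_ker Z h2 _ (hac i hi (by omega))
      rw [hex i (by omega)]
      exact ih (i + 1) (by omega) (by omega)
  have hk2 := hind (m + 1) 2 le_rfl (by omega)
  have hr : AcS Z (LinearMap.range (X.map' 1 2).hom) := by
    rw [hex 1 (by omega)]
    exact hk2
  have hinj : Function.Injective (X.map' 1 2).hom := by
    rw [← LinearMap.ker_eq_bot, ← hex 0 (by omega)]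
    have hsub : Subsingleton (X.obj' 0 : Type u) := ModuleCat.subsingleton_of_isZero h0
    rw [eq_bot_iff]
    rintro _ ⟨x, rfl⟩
    rw [Subsingleton.elim x 0, map_zero]
    exact Submodule.zero_mem _
  have h1 : Z.Acyc (X.obj 1 : Type u) := acyc_of_inj Z _ hinj hr
  refine acyc_retract Z e1.inv.hom e1.hom.hom ?_ h1
  intro x
  have h := congrArg (fun q => q.hom x) e1.inv_hom_id
  exact h

end Pool.Agent.W585.PT

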